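import Pool.Agent.Helper73.Dn.Goals

/-!
# THR: choice of the horizon
-/

set_option autoImplicit false

namespace Pool.Agent.Helper19.Dn

open Finset

theorem thr : Pool.Agent.Helper73.Dn.Thr := by
  classical
  intro R w s h τ ε t ht hε hsw hsum
  set η : ℝ := ε / (2 * (R + 1)) * t with hη
  have hR : (0 : ℝ) ≤ R := Nat.cast_nonneg R
  have hη0 : 0 < η := by positivity
  have hRη : (R : ℝ) * η ≤ ε / 2 * t := by
    have h1 : (R : ℝ) * η = (R / (R + 1)) * (ε / 2 * t) := by
      rw [hη]; field_simp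
    rw [h1]
    have h2 : (R : ℝ) / (R + 1) ≤ 1 := by
      rw [div_le_one (by positivity)]; linarith
    have h3 : 0 ≤ ε / 2 * t := by positivity
    nlinarith
  set G : ℝ → ℝ := fun y => ∑ c ∈ univ.filter (fun c => s c < y), (w c - s c + η) - y with hG
  have hterm : ∀ c, 0 ≤ w c - s c + η := fun c => by linarith [hsw c]
  set Θ : Finset ℝ := insert h ((univ.image s).filter (fun y => y ≤ h)) with hΘ
  obtain ⟨σ, hσΘ, hσmin⟩ := Finset.exists_min_image Θ G ⟨h, by rw [hΘ]; exact mem_insert_self _ _⟩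
  have hσh : σ ≤ h := by
    rw [hΘ, mem_insert, mem_filter] at hσΘ
    rcases hσΘ with h1 | h1
    · exact h1.le
    · exact h1.2
  have hGh : G h ≤ -τ - ε / 2 * t := by
    have h1 : ∑ c ∈ univ.filter (fun c => s c < h), (w c - s c + η) ≤ ∑ c, (w c - s c + η) :=
      sum_le_sum_of_subset_of_nonneg (filter_subset _ _) (fun c _ _ => hterm c)
    have h2 : ∑ c : Fin R, (w c - s c + η) = ∑ c, (w c - s c) + R * η := by
      rw [sum_add_distrib, sum_const, card_univ, Fintype.card_fin, nsmul_eq_mul]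
    simp only [hG]
    linarith
  have hGσ : -σ ≤ G σ := by
    have h1 : 0 ≤ ∑ c ∈ univ.filter (fun c => s c < σ), (w c - s c + η) :=
      sum_nonneg (fun c _ => hterm c)
    simp only [hG]
    linarith
  have hGσh : G σ ≤ G h := hσmin h (by rw [hΘ]; exact mem_insert_self _ _)
  refine ⟨σ, hσh, by linarith, ?_⟩
  intro I c0 hc0 hI
  have hs0 : s c0 < σ := (hI c0 hc0).1
  have hmem : s c0 ∈ Θ := by
    rw [hΘ, mem_insert, mem_filter]
    exact Or.inr ⟨mem_image_of_mem s (mem_univ c0), by linarith⟩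
  have hG0 : G σ ≤ G (s c0) := hσmin _ hmem
  have hsplit : ∑ c ∈ univ.filter (fun c => s c < s c0), (w c - s c + η) +
      ∑ c ∈ I, (w c - s c + η) ≤ ∑ c ∈ univ.filter (fun c => s c < σ), (w c - s c + η) := by
    have hd : Disjoint (univ.filter (fun c => s c < s c0)) I := by
      rw [Finset.disjoint_left]
      intro c hc hcI
      rw [mem_filter] at hc
      linarith [(hI c hcI).2, hc.2]
    rw [← sum_union hd]
    apply sum_le_sum_of_subset_of_nonneg
    · intro c hc
      rw [mem_union, mem_filter] at hc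
      rw [mem_filter]
      refine ⟨mem_univ c, ?_⟩
      rcases hc with hc | hc
      · linarith [hc.2]
      · exact (hI c hc).1
    · intro c _ _
      exact hterm c
  have hIη : ∑ c ∈ I, (w c - s c + η) = ∑ c ∈ I, (w c - s c) + I.card * η := by
    rw [sum_add_distrib, sum_const, nsmul_eq_mul]
  have hcard : (1 : ℝ) ≤ I.card := by
    exact_mod_cast Finset.card_pos.2 ⟨c0, hc0⟩
  have hIη2 : η ≤ I.card * η := by nlinarith
  simp only [hG] at hG0
  have hfin : -(ε / (2 * ((R : ℝ) + 1))) * t = -η := by rw [hη]; ring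
  rw [hfin]
  linarith

end Pool.Agent.Helper19.Dn
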